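import Pool.Agent.Helper88.D4.Stmts
import Pool.Agent.Helper37.SD.Fin

/-!
# Project D4 (MP_e1889a_ag): large weight spaces
-/

set_option autoImplicit false

namespace Pool.Agent.Helper48.D4

open Module Filter Topology Pool.Agent.Helper37.SD Pool.Agent.Helper20.TS Pool.Agent.Helper88.D4

variable {K : Type} [Field K] [Algebra ℂ K]

section Gens

variable {R : Subalgebra ℂ K} {ξ : Derivation ℂ K K} {r : ℕ}
    {H : Fin r → Derivation ℂ K K} {c : Fin r → ℝ}

/-- The degree of a weight vector. -/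
theorem xi_w (ht : Tor R ξ H c) {m : Fin r → ℤ} {y : K} (hy : IsW H m y) :
    ξ y = ((∑ i, c i * m i : ℝ) : ℂ) • y := by
  rw [ht.xi, der_sum_apply]
  push_cast
  rw [Finset.sum_smul]
  refine Finset.sum_congr rfl fun i _ => ?_
  rw [Derivation.smul_apply, hy i, smul_smul]

theorem isW_mul {m m' : Fin r → ℤ} {x y : K} (hx : IsW H m x) (hy : IsW H m' y) :
    IsW H (m + m') (x * y) := by
  intro i
  rw [Derivation.leibniz, hx i, hy i, Pi.add_apply]
  push_cast
  rw [smul_eq_mul, smul_eq_mul, mul_smul_comm, mul_smul_comm, mul_comm y x, add_smul, add_comm]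

/-- `R` is generated by finitely many weight vectors. -/
theorem tor_gens (h : IsCone R ξ) (ht : Tor R ξ H c) : ∃ T : Finset K,
    (∀ t ∈ T, t ∈ R ∧ t ≠ 0 ∧ ∃ m, IsW H m t) ∧ Algebra.adjoin ℂ (T : Set K) = R := by
  classical
  obtain ⟨S, hS⟩ := h.fg
  have hSR : ∀ s ∈ S, s ∈ R := by
    intro s hs
    rw [← hS]
    exact Algebra.subset_adjoin hs
  have h1 : ∀ s : K, ∃ T : Finset K, s ∈ S → (T : Set K) ⊆ {y | y ∈ R ∧ ∃ m : Fin r → ℤ, IsW H m y}
      ∧ s ∈ Submodule.span ℂ (T : Set K) := by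
    intro s
    by_cases hs : s ∈ S
    · obtain ⟨T, hT⟩ := Submodule.mem_span_finite_of_mem_span (ht.span s (hSR s hs))
      exact ⟨T, fun _ => hT⟩
    · exact ⟨∅, fun h => absurd h hs⟩
  choose T hT using h1
  refine ⟨(S.biUnion T).filter fun t => t ≠ 0, fun t ht' => ?_, le_antisymm ?_ ?_⟩
  · obtain ⟨h2, h3⟩ := Finset.mem_filter.1 ht'
    obtain ⟨s, hs, h4⟩ := Finset.mem_biUnion.1 h2
    have h5 := (hT s hs).1 (Finset.mem_coe.2 h4)
    exact ⟨h5.1, h3, h5.2⟩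
  · refine Algebra.adjoin_le fun t ht' => ?_
    obtain ⟨h2, h3⟩ := Finset.mem_filter.1 (Finset.mem_coe.1 ht')
    obtain ⟨s, hs, h4⟩ := Finset.mem_biUnion.1 h2
    exact ((hT s hs).1 (Finset.mem_coe.2 h4)).1
  · conv_lhs => rw [← hS]
    refine Algebra.adjoin_le fun s hs => ?_
    have h2 := (hT s (Finset.mem_coe.1 hs)).2
    have h3 : Submodule.span ℂ (T s : Set K) ≤ Subalgebra.toSubmodule
        (Algebra.adjoin ℂ (((S.biUnion T).filter fun t => t ≠ 0 : Finset K) : Set K)) := by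
      refine Submodule.span_le.2 fun t ht' => ?_
      by_cases h0 : t = 0
      · rw [h0]
        exact Subalgebra.zero_mem _
      · exact Algebra.subset_adjoin (Finset.mem_coe.2 (Finset.mem_filter.2
          ⟨Finset.mem_biUnion.2 ⟨s, Finset.mem_coe.1 hs, Finset.mem_coe.1 ht'⟩, h0⟩))
    exact h3 h2

/-- A nonzero weight vector of `R` of degree `0` has weight `0`. -/
theorem weight_zero (h : IsCone R ξ) (ht : Tor R ξ H c) {m : Fin r → ℤ} {y : K} (hyR : y ∈ R)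
    (hy0 : y ≠ 0) (hy : IsW H m y) (hm : ∑ i, c i * m i = 0) : m = 0 := by
  have h1 : ξ y = 0 := by
    rw [xi_w ht hy, hm]
    simp
  obtain ⟨z, hz⟩ := h.const y hyR h1
  ext i
  have h2 := hy i
  rw [hz, Derivation.map_algebraMap, ← hz] at h2
  rcases smul_eq_zero.1 h2.symm with h3 | h3
  · simpa using h3
  · exact absurd h3 hy0

theorem deg_nonneg (h : IsCone R ξ) (ht : Tor R ξ H c) {m : Fin r → ℤ} {y : K} (hyR : y ∈ R)
    (hy0 : y ≠ 0) (hy : IsW H m y) : 0 ≤ ∑ i, c i * m i :=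
  h.eig_nonneg hyR hy0 (xi_w ht hy)

/-- The weights of `R` lie in a cone. -/
theorem weight_bound (h : IsCone R ξ) (ht : Tor R ξ H c) : ∃ L : ℝ, 0 ≤ L ∧
    ∀ (m : Fin r → ℤ) (y : K), y ∈ R → y ≠ 0 → IsW H m y →
      ∀ i, |(m i : ℝ)| ≤ L * ∑ i, c i * m i := by
  classical
  obtain ⟨T, hT, hR⟩ := tor_gens h ht
  have h1 : ∀ t : K, ∃ m : Fin r → ℤ, t ∈ T → IsW H m t := by
    intro t
    by_cases h2 : t ∈ T
    · obtain ⟨m, hm⟩ := (hT t h2).2.2
      exact ⟨m, fun _ => hm⟩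
    · exact ⟨0, fun h => absurd h h2⟩
  choose w hw using h1
  set L : ℝ := ∑ t ∈ T, ∑ i, |(w t i : ℝ)| / ∑ i, c i * w t i with hL
  have hdeg : ∀ t ∈ T, 0 ≤ ∑ i, c i * w t i := fun t h2 =>
    deg_nonneg h ht (hT t h2).1 (hT t h2).2.1 (hw t h2)
  have hterm : ∀ t ∈ T, ∀ i, 0 ≤ |(w t i : ℝ)| / ∑ i, c i * w t i := fun t h2 i =>
    div_nonneg (abs_nonneg _) (hdeg t h2)
  have hL0 : 0 ≤ L := Finset.sum_nonneg fun t h2 => Finset.sum_nonneg fun i _ => hterm t h2 i
  have hgen : ∀ t ∈ T, ∀ i, |(w t i : ℝ)| ≤ L * ∑ i, c i * w t i := by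
    intro t h2 i
    rcases (hdeg t h2).eq_or_lt with h3 | h3
    · have h4 := weight_zero h ht (hT t h2).1 (hT t h2).2.1 (hw t h2) h3.symm
      rw [h4]
      simp
    · rw [← div_le_iff₀ h3]
      refine le_trans ?_ (Finset.single_le_sum (f := fun t => ∑ i, |(w t i : ℝ)| /
        ∑ i, c i * w t i) (fun t h2 => Finset.sum_nonneg fun i _ => hterm t h2 i) h2)
      exact Finset.single_le_sum (f := fun i => |(w t i : ℝ)| / ∑ i, c i * w t i)
        (fun i _ => hterm t h2 i) (Finset.mem_univ i)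
  refine ⟨L, hL0, fun m y hyR hy0 hy i => ?_⟩
  have key : ∀ s : ℝ, |s| = 1 → 0 ≤ L * (∑ i, c i * m i) + s * m i := by
    intro s hs
    set E : Derivation ℂ K K := (L : ℂ) • ξ + (s : ℂ) • H i with hE
    have hEw : ∀ (m' : Fin r → ℤ) (x : K), IsW H m' x →
        E x = ((L * (∑ i, c i * m' i) + s * m' i : ℝ) : ℂ) • x := by
      intro m' x hx
      rw [hE, Derivation.add_apply, Derivation.smul_apply, Derivation.smul_apply, xi_w ht hx,
        hx i, smul_smul, smul_smul, ← add_smul]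
      push_cast
      rfl
    have hall : ∀ x ∈ Algebra.adjoin ℂ (T : Set K),
        x ∈ Hsp (E : K →ₗ[ℂ] K) ⊤ (fun b => 0 ≤ b) := by
      intro x hx
      induction hx using Algebra.adjoin_induction with
      | mem x hx =>
        have h2 := Finset.mem_coe.1 hx
        refine mem_hsp Submodule.mem_top ?_ (hEw (w x) x (hw x h2))
        have h3 := hgen x h2 i
        have h4 : |s * (w x i : ℝ)| = |(w x i : ℝ)| := by rw [abs_mul, hs, one_mul]
        have h5 := neg_abs_le (s * (w x i : ℝ))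
        rw [h4] at h5
        linarith
      | algebraMap z =>
        rw [Algebra.algebraMap_eq_smul_one]
        exact Submodule.smul_mem _ _ (mem_hsp Submodule.mem_top le_rfl eig_one)
      | add x y _ _ hx hy => exact Submodule.add_mem _ hx hy
      | mul x y _ _ hx hy => exact hsp_mul_top (fun a b ha hb => add_nonneg ha hb) hx hy
    exact prop_of_mem_hsp hy0 (hEw m y hy) (hall y (by rw [hR]; exact hyR))
  have h1 := key 1 (by simp)
  have h2 := key (-1) (by simp)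
  rw [abs_le]
  constructor <;> linarith

theorem finite_wsp (h : IsCone R ξ) (ht : Tor R ξ H c) (m : Fin r → ℤ) :
    Module.Finite ℂ (Wsp R H m) := by
  have h1 := h.finite_eigR (∑ i, c i * m i)
  have h2 : Wsp R H m ≤ eigR R ξ (∑ i, c i * m i) := fun y hy => ⟨hy.1, xi_w ht hy.2⟩
  exact Submodule.finiteDimensional_of_le h2

/-- The colength is at most the sum of the dimensions of the weight spaces. -/
theorem colen_le {v : RVal K} (h : IsCone R ξ) (ht : Tor R ξ H c) (hv : IsWt R ξ v) (t : ℝ)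
    (S : Finset (Fin r → ℤ)) (hS : ∀ (m : Fin r → ℤ) (y : K), y ∈ R → y ≠ 0 → IsW H m y →
      ∑ i, c i * m i < t → m ∈ S) :
    finrank ℂ (R ⧸ idl R v t) ≤ ∑ m ∈ S, finrank ℂ (Wsp R H m) := by
  classical
  have hfin : ∀ m : Fin r → ℤ, Module.Finite ℂ (Wsp R H m) := finite_wsp h ht
  let ι : ∀ m : Fin r → ℤ, Wsp R H m →ₗ[ℂ] R := fun m =>
    LinearMap.codRestrict (Subalgebra.toSubmodule R) (Wsp R H m).subtype (fun x => x.2.1)
  let Φ : (∀ m : S, Wsp R H (m : Fin r → ℤ)) →ₗ[ℂ] R ⧸ idl R v t :=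
    ∑ m : S, ((idl R v t).mkQ.comp (ι m)).comp (LinearMap.proj m)
  have hΦa : ∀ f, Φ f = ∑ m : S, (idl R v t).mkQ (ι m (f m)) := by
    intro f
    simp only [Φ, LinearMap.sum_apply, LinearMap.comp_apply, LinearMap.proj_apply]
  have hΦ : Function.Surjective Φ := by
    let P : Submodule ℂ K := ((LinearMap.range Φ).comap (idl R v t).mkQ).map R.val.toLinearMap
    have hP : Submodule.span ℂ {y | y ∈ R ∧ ∃ m : Fin r → ℤ, IsW H m y} ≤ P := by
      refine Submodule.span_le.2 ?_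
      rintro y ⟨hyR, m, hy⟩
      refine ⟨⟨y, hyR⟩, ?_, rfl⟩
      show (idl R v t).mkQ ⟨y, hyR⟩ ∈ LinearMap.range Φ
      by_cases hy0 : y = 0
      · subst hy0
        have : (⟨0, hyR⟩ : R) = 0 := rfl
        rw [this, map_zero]
        exact Submodule.zero_mem _
      by_cases hlt : ∑ i, c i * m i < t
      · have hmS := hS m y hyR hy0 hy hlt
        refine ⟨Pi.single ⟨m, hmS⟩ ⟨y, hyR, hy⟩, ?_⟩
        rw [hΦa, Finset.sum_eq_single (⟨m, hmS⟩ : S)]
        · rw [Pi.single_eq_same]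
          rfl
        · intro b _ hb
          rw [Pi.single_eq_of_ne hb, map_zero, map_zero]
        · intro hb
          exact absurd (Finset.mem_univ _) hb
      · have h1 : (⟨y, hyR⟩ : R) ∈ idl R v t := by
          refine Or.inr ?_
          show t ≤ v.val y
          rw [hv.val_eig h hy0 (xi_w ht hy)]
          exact not_lt.1 hlt
        have h2 : (idl R v t).mkQ ⟨y, hyR⟩ = 0 := (Submodule.Quotient.mk_eq_zero _).2 h1
        rw [h2]
        exact Submodule.zero_mem _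
    intro q
    obtain ⟨⟨x, hx⟩, rfl⟩ := (idl R v t).mkQ_surjective q
    obtain ⟨x', hx', he⟩ := hP (ht.span x hx)
    have he' : x' = ⟨x, hx⟩ := Subtype.ext he
    rw [he'] at hx'
    exact hx'
  calc finrank ℂ (R ⧸ idl R v t) ≤ finrank ℂ (∀ m : S, Wsp R H (m : Fin r → ℤ)) :=
        LinearMap.finrank_le_finrank_of_surjective hΦ
    _ = ∑ m : S, finrank ℂ (Wsp R H (m : Fin r → ℤ)) := Module.finrank_pi_fintype ℂ
    _ = ∑ m ∈ S, finrank ℂ (Wsp R H m) :=
        Finset.sum_coe_sort S (fun m => finrank ℂ (Wsp R H m))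

end Gens

/-- The analytic end: a bound `A + B (t + 1) ^ 3` of the colengths is impossible. -/
theorem vol_contra {R : Subalgebra ℂ K} {v : RVal K} {V : ℝ} (hV : HasVol 2 R v V) (hV0 : 0 < V)
    {A B : ℝ} (hA : 0 ≤ A) (hB : 0 ≤ B)
    (hb : ∀ n : ℕ, (finrank ℂ (R ⧸ idl R v n) : ℝ) ≤ A + B * ((n : ℝ) + 1) ^ 3) : False := by
  have h1 : Tendsto (fun n : ℕ => (24 * (A + 8 * B)) / (n : ℝ)) atTop (𝓝 0) :=
    tendsto_const_div_atTop_nhds_zero_nat _
  have h2 : ∀ᶠ n : ℕ in atTop, ((2 * 2).factorial : ℝ) * (finrank ℂ (R ⧸ idl R v n) : ℝ) /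
      (n : ℝ) ^ (2 * 2) ≤ (24 * (A + 8 * B)) / (n : ℝ) := by
    filter_upwards [eventually_ge_atTop 1] with n hn
    have hn1 : (1 : ℝ) ≤ n := by exact_mod_cast hn
    have e : ((2 * 2).factorial : ℝ) = 24 := by norm_num [Nat.factorial]
    rw [e, div_le_div_iff₀ (by positivity) (by linarith)]
    have h3 : ((n : ℝ) + 1) ^ 3 ≤ 8 * (n : ℝ) ^ 3 := by
      have : (n : ℝ) + 1 ≤ 2 * n := by linarith
      calc ((n : ℝ) + 1) ^ 3 ≤ (2 * n) ^ 3 := by gcongr
        _ = 8 * (n : ℝ) ^ 3 := by ring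
    have h4 : (finrank ℂ (R ⧸ idl R v n) : ℝ) ≤ (A + 8 * B) * (n : ℝ) ^ 3 := by
      have h5 : (1 : ℝ) ≤ (n : ℝ) ^ 3 := one_le_pow₀ hn1
      calc (finrank ℂ (R ⧸ idl R v n) : ℝ) ≤ A + B * ((n : ℝ) + 1) ^ 3 := hb n
        _ ≤ A * (n : ℝ) ^ 3 + B * (8 * (n : ℝ) ^ 3) := by gcongr; exact le_mul_of_one_le_right hA h5
        _ = (A + 8 * B) * (n : ℝ) ^ 3 := by ring
    calc 24 * (finrank ℂ (R ⧸ idl R v n) : ℝ) * n ≤ 24 * ((A + 8 * B) * (n : ℝ) ^ 3) * n := by
          gcongr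
      _ = 24 * (A + 8 * B) * (n : ℝ) ^ (2 * 2) := by ring
  exact absurd (le_of_tendsto_of_tendsto hV h1 h2) (not_le.2 hV0)

theorem s_CNT : S_CNT := by
  classical
  intro K _ _ R ξ J v a V r H c h4 hmin ht hr1 hr3 B
  have h : IsCone R ξ := h4.toIsCone
  by_contra hcon
  have hcon' : ∀ m : Fin r → ℤ, 0 < ∑ i, c i * m i →
      (finrank ℂ (Wsp R H m) : ℝ) ≤ |B| * (∑ i, c i * m i + 1) ^ (3 - r) := by
    intro m hm
    by_contra h2
    refine hcon ⟨m, hm, ?_, finite_wsp h ht m⟩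
    refine lt_of_le_of_lt ?_ (not_le.1 h2)
    gcongr
    exact le_abs_self B
  obtain ⟨L, hL0, hL⟩ := weight_bound h ht
  refine vol_contra hmin.vol hmin.vpos (A := (finrank ℂ (Wsp R H 0) : ℝ))
    (B := (2 * L + 3) ^ r * |B|) (Nat.cast_nonneg _) (by positivity) fun n => ?_
  set N : ℕ := ⌈L * n⌉₊ with hN
  let Box : Finset (Fin r → ℤ) := Fintype.piFinset fun _ => Finset.Icc (-(N : ℤ)) (N : ℤ)
  let S₁ : Finset (Fin r → ℤ) := Box.filter fun m => 0 < ∑ i, c i * m i ∧ ∑ i, c i * m i < n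
  let S : Finset (Fin r → ℤ) := insert 0 S₁
  have hS : ∀ (m : Fin r → ℤ) (y : K), y ∈ R → y ≠ 0 → IsW H m y →
      ∑ i, c i * m i < (n : ℝ) → m ∈ S := by
    intro m y hyR hy0 hy hlt
    rcases (deg_nonneg h ht hyR hy0 hy).eq_or_lt with h1 | h1
    · rw [weight_zero h ht hyR hy0 hy h1.symm]
      exact Finset.mem_insert_self _ _
    · refine Finset.mem_insert_of_mem (Finset.mem_filter.2 ⟨Fintype.mem_piFinset.2 fun i => ?_,
        h1, hlt⟩)
      have h2 : |(m i : ℝ)| ≤ N := by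
        refine (hL m y hyR hy0 hy i).trans ?_
        refine le_trans ?_ (Nat.le_ceil (L * n))
        gcongr
      have h3 : |m i| ≤ (N : ℤ) := by exact_mod_cast h2
      rw [Finset.mem_Icc]
      exact abs_le.1 h3
  have hcard : (S₁.card : ℝ) ≤ ((2 * L + 3) * ((n : ℝ) + 1)) ^ r := by
    have h1 : S₁.card ≤ (2 * N + 1) ^ r := by
      refine (Finset.card_filter_le _ _).trans ?_
      rw [Fintype.card_piFinset]
      simp only [Int.card_Icc, Finset.prod_const, Finset.card_univ, Fintype.card_fin]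
      have : ((N : ℤ) + 1 - -(N : ℤ)).toNat = 2 * N + 1 := by omega
      rw [this]
    have h2 : (N : ℝ) ≤ L * n + 1 := (Nat.ceil_lt_add_one (by positivity)).le
    calc (S₁.card : ℝ) ≤ ((2 * N + 1 : ℕ) : ℝ) ^ r := by exact_mod_cast h1
      _ ≤ ((2 * L + 3) * ((n : ℝ) + 1)) ^ r := by
          gcongr
          push_cast
          have : (0 : ℝ) ≤ n := Nat.cast_nonneg n
          nlinarith
  calc (finrank ℂ (R ⧸ idl R v n) : ℝ) ≤ ((∑ m ∈ S, finrank ℂ (Wsp R H m) : ℕ) : ℝ) := by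
        exact_mod_cast colen_le h ht hmin.wt n S hS
    _ ≤ (finrank ℂ (Wsp R H 0) : ℝ) + ∑ m ∈ S₁, (finrank ℂ (Wsp R H m) : ℝ) := by
        have h1 : ∑ m ∈ S, finrank ℂ (Wsp R H m) ≤ finrank ℂ (Wsp R H 0) +
            ∑ m ∈ S₁, finrank ℂ (Wsp R H m) := by
          by_cases h0 : (0 : Fin r → ℤ) ∈ S₁
          · simp only [S, Finset.insert_eq_of_mem h0]
            exact Nat.le_add_left _ _
          · simp only [S, Finset.sum_insert h0]
            exact le_refl _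
        exact_mod_cast h1
    _ ≤ (finrank ℂ (Wsp R H 0) : ℝ) + ∑ m ∈ S₁, |B| * ((n : ℝ) + 1) ^ (3 - r) := by
        gcongr with m hm
        obtain ⟨-, h1, h2⟩ := Finset.mem_filter.1 hm
        refine (hcon' m h1).trans ?_
        gcongr
    _ = (finrank ℂ (Wsp R H 0) : ℝ) + S₁.card * (|B| * ((n : ℝ) + 1) ^ (3 - r)) := by
        rw [Finset.sum_const, nsmul_eq_mul]
    _ ≤ (finrank ℂ (Wsp R H 0) : ℝ) + ((2 * L + 3) * ((n : ℝ) + 1)) ^ r *
        (|B| * ((n : ℝ) + 1) ^ (3 - r)) := by gcongr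
    _ = (finrank ℂ (Wsp R H 0) : ℝ) + (2 * L + 3) ^ r * |B| * ((n : ℝ) + 1) ^ 3 := by
        have e : ((n : ℝ) + 1) ^ 3 = ((n : ℝ) + 1) ^ r * ((n : ℝ) + 1) ^ (3 - r) := by
          rw [← pow_add]
          congr 1
          omega
        rw [e, mul_pow]
        ring

end Pool.Agent.Helper48.D4
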