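import Pool.Agent.Helper88.D4.Stmts

/-!
# Project D4 (MP_e1889a_ag): the torus acts generically freely
-/

set_option autoImplicit false

namespace Pool.Agent.Helper48.D4

open Module Filter Topology Pool.Agent.Helper37.SD Pool.Agent.Helper20.TS Pool.Agent.Helper88.D4

variable {K : Type} [Field K] [Algebra ℂ K]

/-- The weights of `R` span. -/
theorem weights_span {R : Subalgebra ℂ K} {ξ : Derivation ℂ K K} {r : ℕ}
    {H : Fin r → Derivation ℂ K K} {c : Fin r → ℝ} (hR : IsFrac R) (ht : Tor R ξ H c) :
    Submodule.span ℂ {w : Fin r → ℂ | ∃ m : Fin r → ℤ, (∀ i, w i = (m i : ℂ)) ∧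
      ∃ y ∈ R, y ≠ 0 ∧ IsW H m y} = ⊤ := by
  classical
  by_contra hne
  obtain ⟨f, hf0, hf⟩ := Submodule.exists_le_ker_of_lt_top _ (lt_top_iff_ne_top.2 hne)
  apply hf0
  have hfe : ∀ w : Fin r → ℂ, f w = ∑ i, w i * f (Pi.single i 1) := by
    intro w
    have e : w = ∑ i, w i • (Pi.single i (1 : ℂ) : Fin r → ℂ) := by
      ext j
      simp [Finset.sum_apply, Pi.single_apply]
    conv_lhs => rw [e]
    rw [map_sum]
    exact Finset.sum_congr rfl fun i _ => by rw [map_smul, smul_eq_mul]
  have hD : (∑ i, f (Pi.single i 1) • H i : Derivation ℂ K K) = 0 := by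
    refine der_eq_zero hR fun x hx => ?_
    have h1 := ht.span x hx
    clear hx
    induction h1 using Submodule.span_induction with
    | mem y hy =>
      obtain ⟨hyR, m, hm⟩ := hy
      by_cases hy0 : y = 0
      · rw [hy0, map_zero]
      · rw [der_sum_apply]
        have h2 : f (fun i => (m i : ℂ)) = 0 := hf (Submodule.subset_span
          ⟨m, fun i => rfl, y, hyR, hy0, hm⟩)
        rw [hfe] at h2
        calc ∑ i, (f (Pi.single i 1) • H i) y
            = ∑ i, ((m i : ℂ) * f (Pi.single i 1)) • y := by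
              refine Finset.sum_congr rfl fun i _ => ?_
              rw [Derivation.smul_apply, hm i, smul_smul, mul_comm]
          _ = (∑ i, (m i : ℂ) * f (Pi.single i 1)) • y := by rw [Finset.sum_smul]
          _ = 0 := by rw [h2, zero_smul]
    | zero => exact map_zero _
    | add x y _ _ hx hy => rw [map_add, hx, hy, add_zero]
    | smul z x _ hx => rw [Derivation.map_smul, hx, smul_zero]
  have h3 := Fintype.linearIndependent_iff.1 ht.ind _ hD
  ext i
  simpa using h3 i

theorem s_B0 : S_B0 := by
  classical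
  intro K _ _ R ξ r H c hfr ht
  have hM := weights_span hfr ht
  rw [Fintype.linearIndependent_iff]
  intro g hg j
  have key : ∀ w ∈ Submodule.span ℂ {w : Fin r → ℂ | ∃ m : Fin r → ℤ, (∀ i, w i = (m i : ℂ)) ∧
      ∃ y ∈ R, y ≠ 0 ∧ IsW H m y}, ∑ i, algebraMap ℂ K (w i) * g i = 0 := by
    intro w hw
    induction hw using Submodule.span_induction with
    | mem w hw =>
      obtain ⟨m, hm, y, -, hy0, hy⟩ := hw
      have h1 : (∑ i, g i • H i : Derivation ℂ K K) y = 0 := by rw [hg]; rfl
      rw [der_sum_apply] at h1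
      have h2 : (∑ i, algebraMap ℂ K (w i) * g i) * y = 0 := by
        rw [Finset.sum_mul, ← h1]
        refine Finset.sum_congr rfl fun i _ => ?_
        rw [Derivation.smul_apply, hy i, hm i, smul_eq_mul, Algebra.smul_def (m i : ℂ) y]
        ring
      exact (mul_eq_zero.1 h2).resolve_right hy0
    | zero => simp
    | add x y _ _ hx hy =>
      simp only [Pi.add_apply, map_add, add_mul, Finset.sum_add_distrib, hx, hy, add_zero]
    | smul z x _ hx =>
      simp only [Pi.smul_apply, smul_eq_mul, map_mul, mul_assoc, ← Finset.mul_sum, hx, mul_zero]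
  have h4 := key (Pi.single j 1) (hM ▸ Submodule.mem_top)
  simpa [Pi.single_apply, apply_ite] using h4

end Pool.Agent.Helper48.D4
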