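import Pool.Agent.Helper48.D4.Cnt
import Pool.Agent.Helper88.D4.Stmts5

/-!
# Project D4 (MP_e1889a_ag): growth of the weight spaces in the direction of the volume form
-/

set_option autoImplicit false

namespace Pool.Agent.Helper48.D4

open Module Filter Topology Pool.Agent.Helper37.SD Pool.Agent.Helper20.TS Pool.Agent.Helper88.D4

variable {K : Type} [Field K] [Algebra ℂ K]

section Weights

variable {R : Subalgebra ℂ K} {ξ : Derivation ℂ K K} {r : ℕ}
    {H : Fin r → Derivation ℂ K K} {c : Fin r → ℝ}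

theorem isW_one : IsW H 0 (1 : K) := by
  intro i
  rw [Derivation.map_one_eq_zero]
  simp

theorem isW_pow {m : Fin r → ℤ} {x : K} (hx : IsW H m x) (n : ℕ) : IsW H ((n : ℤ) • m) (x ^ n) := by
  induction n with
  | zero =>
    rw [pow_zero]
    have e : ((0 : ℕ) : ℤ) • m = 0 := by simp
    rw [e]
    exact isW_one
  | succ n ih =>
    rw [pow_succ]
    have e : ((n + 1 : ℕ) : ℤ) • m = (n : ℤ) • m + m := by
      push_cast
      rw [add_smul, one_smul]
    rw [e]
    exact isW_mul ih hx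

/-- The value of a linear form on the weight is an eigenvalue. -/
theorem rho_w {m : Fin r → ℤ} {y : K} (ρ : Fin r → ℝ) (hy : IsW H m y) :
    (∑ i, (ρ i : ℂ) • H i : Derivation ℂ K K) y = ((∑ i, ρ i * m i : ℝ) : ℂ) • y := by
  rw [der_sum_apply]
  push_cast
  rw [Finset.sum_smul]
  refine Finset.sum_congr rfl fun i _ => ?_
  rw [Derivation.smul_apply, hy i, smul_smul]

/-- A property of weights which is closed under addition and holds for the generators holds for all
weights of `R`, provided `ρ` separates the weights. -/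
theorem weight_induction {T : Finset K} (hR : Algebra.adjoin ℂ (T : Set K) = R)
    (w : K → Fin r → ℤ) (hw : ∀ t ∈ T, IsW H (w t) t) (ρ : Fin r → ℝ) (P : ℝ → Prop)
    (h0 : P 0) (hadd : ∀ a b, P a → P b → P (a + b)) (hgen : ∀ t ∈ T, P (∑ i, ρ i * w t i))
    {m : Fin r → ℤ} {y : K} (hyR : y ∈ R) (hy0 : y ≠ 0) (hy : IsW H m y) :
    P (∑ i, ρ i * m i) := by
  set E : Derivation ℂ K K := ∑ i, (ρ i : ℂ) • H i with hE
  have hall : ∀ x ∈ Algebra.adjoin ℂ (T : Set K), x ∈ Hsp (E : K →ₗ[ℂ] K) ⊤ P := by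
    intro x hx
    induction hx using Algebra.adjoin_induction with
    | mem x hx =>
      have h2 := Finset.mem_coe.1 hx
      exact mem_hsp Submodule.mem_top (hgen x h2) (rho_w ρ (hw x h2))
    | algebraMap z =>
      rw [Algebra.algebraMap_eq_smul_one]
      exact Submodule.smul_mem _ _ (mem_hsp Submodule.mem_top h0 eig_one)
    | add x y _ _ hx hy => exact Submodule.add_mem _ hx hy
    | mul x y _ _ hx hy => exact hsp_mul_top hadd hx hy
  exact prop_of_mem_hsp hy0 (rho_w ρ hy) (hall y (by rw [hR]; exact hyR))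

end Weights

/-- integers `x`, `y` are determined by `x + √2 y` -/
theorem sqrt_two_inj {x y x' y' : ℤ} (h : (x : ℝ) + √2 * y = x' + √2 * y') : x = x' ∧ y = y' := by
  have h1 : (√2) * ((y : ℝ) - y') = x' - x := by linarith
  by_cases hy : y = y'
  · subst hy
    refine ⟨?_, rfl⟩
    have : (x : ℝ) = x' := by linarith
    exact_mod_cast this
  · exfalso
    have h2 : ((y : ℝ) - y') ≠ 0 := by
      intro h3
      apply hy
      have : (y : ℝ) = y' := by linarith
      exact_mod_cast this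
    refine irrational_sqrt_two ⟨((x' - x : ℤ) : ℚ) / ((y - y' : ℤ) : ℚ), ?_⟩
    push_cast
    rw [div_eq_iff h2]
    linarith

theorem s_GW (hINT : S_INT) : S_GW := by
  classical
  intro K _ _ R ξ J v a V H c h4 hM ht w₀ hw₀ B
  have h : IsCone R ξ := h4.toIsCone
  have hmin : IsMin R ξ J v a V := ⟨hM.wt, hM.vol, hM.apos, hM.vpos, fun w a' V' h1 h2 h3 =>
    hM.min w a' V' h1 h2 fun ε hε => (h3 ε hε).frequently⟩
  obtain ⟨T, hT, hR⟩ := tor_gens h ht
  have h1 : ∀ t : K, ∃ m : Fin 2 → ℤ, t ∈ T → IsW H m t := by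
    intro t
    by_cases h2 : t ∈ T
    · obtain ⟨m, hm⟩ := (hT t h2).2.2
      exact ⟨m, fun _ => hm⟩
    · exact ⟨0, fun h => absurd h h2⟩
  choose w hw using h1
  -- the degree
  set dg : (Fin 2 → ℤ) → ℝ := fun m => ∑ i, c i * m i with hdg
  have dg_add : ∀ m m' : Fin 2 → ℤ, dg (m + m') = dg m + dg m' := by
    intro m m'
    simp only [hdg, Pi.add_apply, Fin.sum_univ_two]
    push_cast
    ring
  have dg_smul : ∀ (n : ℤ) (m : Fin 2 → ℤ), dg (n • m) = n * dg m := by
    intro n m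
    simp only [hdg, Pi.smul_apply, Fin.sum_univ_two, smul_eq_mul]
    push_cast
    ring
  -- a nonzero element of positive degree
  obtain ⟨m₁, hm₁, hm₁B, -⟩ := s_CNT K R ξ J v a V 2 H c h4 hmin ht (by norm_num) (by norm_num) 0
  have hex : ∀ m : Fin 2 → ℤ, (0 : ℝ) < (finrank ℂ (Wsp R H m) : ℝ) →
      ∃ y ∈ R, y ≠ 0 ∧ IsW H m y := by
    intro m hm
    have h2 : 0 < finrank ℂ (Wsp R H m) := by exact_mod_cast hm
    have hf : Module.Finite ℂ (Wsp R H m) := finite_wsp h ht m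
    obtain ⟨y, hy⟩ := Module.finrank_pos_iff_exists_ne_zero.1 h2
    exact ⟨y, y.2.1, fun h3 => hy (Subtype.ext h3), y.2.2⟩
  obtain ⟨y₁, hy₁R, hy₁0, hy₁w⟩ := hex m₁ (by simpa using hm₁B)
  have hdw : 0 < dg w₀ := by
    refine hINT K R ξ J v a V 2 H c h4 hM ht w₀ hw₀ c (fun m y hyR hy0 hy =>
      deg_nonneg h ht hyR hy0 hy) ⟨m₁, y₁, hy₁R, hy₁0, hy₁w, hm₁⟩
  -- vectors parallel to `w₀`
  have hpar : ∀ u : Fin 2 → ℤ, w₀ 0 * u 1 = w₀ 1 * u 0 → 0 < dg u →
      ∃ M D : ℕ, 1 ≤ M ∧ 1 ≤ D ∧ (M : ℤ) • u = (D : ℤ) • w₀ := by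
    intro u hu hdu
    obtain ⟨i, hi⟩ : ∃ i, w₀ i ≠ 0 := by
      by_contra hno
      push Not at hno
      have : w₀ = 0 := funext hno
      rw [this] at hdw
      simp [hdg] at hdw
    have h2 : (w₀ i * w₀ i) • u = (u i * w₀ i) • w₀ := by
      ext k
      simp only [Pi.smul_apply, smul_eq_mul]
      fin_cases i <;> fin_cases k <;> simp only [Fin.zero_eta, Fin.mk_one] <;>
        first
          | ring1
          | linear_combination w₀ 0 * hu
          | linear_combination (-w₀ 1) * hu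
    have h3 : 0 < w₀ i * w₀ i := mul_self_pos.2 hi
    have h4' : (0 : ℝ) < ((u i * w₀ i : ℤ) : ℝ) := by
      have h5 := congrArg dg h2
      rw [dg_smul, dg_smul] at h5
      have h6 : (0 : ℝ) < ((w₀ i * w₀ i : ℤ) : ℝ) := by exact_mod_cast h3
      have h7 : 0 < ((u i * w₀ i : ℤ) : ℝ) * dg w₀ := by
        rw [← h5]
        positivity
      exact pos_of_mul_pos_left h7 hdw.le
    have h5 : 0 < u i * w₀ i := by exact_mod_cast h4'
    refine ⟨(w₀ i * w₀ i).toNat, (u i * w₀ i).toNat, by omega, by omega, ?_⟩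
    rw [Int.toNat_of_nonneg h3.le, Int.toNat_of_nonneg h5.le, h2]
  -- step B
  have hB : ∀ t ∈ T, 0 < dg (w t) → ∃ D : ℕ, ∃ g ∈ R, g ≠ 0 ∧ IsW H ((D : ℤ) • w₀ - w t) g := by
    intro t htT hdt
    obtain ⟨t', ht'T, n, n', hn, hdet⟩ : ∃ t' ∈ T, ∃ n n' : ℕ, 1 ≤ n ∧
        w₀ 0 * (((n : ℤ) • w t + (n' : ℤ) • w t') 1) =
          w₀ 1 * (((n : ℤ) • w t + (n' : ℤ) • w t') 0) := by
      rcases eq_or_ne (w₀ 0 * w t 1 - w₀ 1 * w t 0) 0 with h2 | h2
      · refine ⟨t, htT, 1, 0, le_rfl, ?_⟩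
        simp only [Pi.add_apply, Pi.smul_apply, smul_eq_mul]
        push_cast
        linarith
      · obtain ⟨t', ht'T, h3⟩ : ∃ t' ∈ T, (w₀ 0 * w t 1 - w₀ 1 * w t 0) *
            (w₀ 0 * w t' 1 - w₀ 1 * w t' 0) < 0 := by
          by_contra hno
          push Not at hno
          have h5 := hINT K R ξ J v a V 2 H c h4 hM ht w₀ hw₀
            ![-((w₀ 0 * w t 1 - w₀ 1 * w t 0 : ℤ) : ℝ) * w₀ 1,
              ((w₀ 0 * w t 1 - w₀ 1 * w t 0 : ℤ) : ℝ) * w₀ 0] ?_ ?_
          · rw [Fin.sum_univ_two] at h5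
            simp only [Matrix.cons_val_zero, Matrix.cons_val_one] at h5
            have : -((w₀ 0 * w t 1 - w₀ 1 * w t 0 : ℤ) : ℝ) * w₀ 1 * w₀ 0 +
                ((w₀ 0 * w t 1 - w₀ 1 * w t 0 : ℤ) : ℝ) * w₀ 0 * w₀ 1 = 0 := by ring
            rw [this] at h5
            exact lt_irrefl _ h5
          · intro m y hyR hy0 hy
            refine weight_induction hR w hw _ (fun b => 0 ≤ b) le_rfl
              (fun a b ha hb => add_nonneg ha hb) (fun s hs => ?_) hyR hy0 hy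
            rw [Fin.sum_univ_two]
            simp only [Matrix.cons_val_zero, Matrix.cons_val_one]
            have h6 := hno s hs
            have h7 : (0 : ℝ) ≤ (((w₀ 0 * w t 1 - w₀ 1 * w t 0) *
              (w₀ 0 * w s 1 - w₀ 1 * w s 0) : ℤ) : ℝ) := by exact_mod_cast h6
            push_cast at h7 ⊢
            nlinarith
          · refine ⟨w t, t, (hT t htT).1, (hT t htT).2.1, hw t htT, ?_⟩
            rw [Fin.sum_univ_two]
            simp only [Matrix.cons_val_zero, Matrix.cons_val_one]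
            have h6 : 0 < (w₀ 0 * w t 1 - w₀ 1 * w t 0) * (w₀ 0 * w t 1 - w₀ 1 * w t 0) :=
              mul_self_pos.2 h2
            have h7 : (0 : ℝ) < (((w₀ 0 * w t 1 - w₀ 1 * w t 0) *
              (w₀ 0 * w t 1 - w₀ 1 * w t 0) : ℤ) : ℝ) := by exact_mod_cast h6
            push_cast at h7 ⊢
            nlinarith
        refine ⟨t', ht'T, (w₀ 0 * w t' 1 - w₀ 1 * w t' 0).natAbs,
          (w₀ 0 * w t 1 - w₀ 1 * w t 0).natAbs, ?_, ?_⟩
        · have h5 : (w₀ 0 * w t' 1 - w₀ 1 * w t' 0) ≠ 0 := by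
            intro h5
            rw [h5, mul_zero] at h3
            exact lt_irrefl _ h3
          omega
        · simp only [Pi.add_apply, Pi.smul_apply, smul_eq_mul]
          set X := w₀ 0 * w t 1 - w₀ 1 * w t 0 with hX
          set Y := w₀ 0 * w t' 1 - w₀ 1 * w t' 0 with hY
          rw [Int.natCast_natAbs, Int.natCast_natAbs]
          have h6 : |Y| * X + |X| * Y = 0 := by
            rcases mul_neg_iff.1 h3 with ⟨h7, h8⟩ | ⟨h7, h8⟩
            · rw [abs_of_neg h8, abs_of_pos h7]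
              ring
            · rw [abs_of_pos h8, abs_of_neg h7]
              ring
          have h7 : |Y| * (w₀ 0 * w t 1 - w₀ 1 * w t 0) +
            |X| * (w₀ 0 * w t' 1 - w₀ 1 * w t' 0) = 0 := h6
          linear_combination h7
    have hdt' : 0 ≤ dg (w t') := deg_nonneg h ht (hT t' ht'T).1 (hT t' ht'T).2.1 (hw t' ht'T)
    have hdv : 0 < dg ((n : ℤ) • w t + (n' : ℤ) • w t') := by
      rw [dg_add, dg_smul, dg_smul]
      have h5 : (1 : ℝ) ≤ ((n : ℤ) : ℝ) := by exact_mod_cast hn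
      have h6 : (0 : ℝ) ≤ ((n' : ℤ) : ℝ) := by positivity
      nlinarith [mul_nonneg h6 hdt']
    obtain ⟨M, D, hM1, hD1, hMD⟩ := hpar _ hdet hdv
    refine ⟨D, t ^ (M * n - 1) * t' ^ (M * n'), R.mul_mem (R.pow_mem (hT t htT).1 _)
      (R.pow_mem (hT t' ht'T).1 _), mul_ne_zero (pow_ne_zero _ (hT t htT).2.1)
      (pow_ne_zero _ (hT t' ht'T).2.1), ?_⟩
    have h5 := isW_mul (isW_pow (hw t htT) (M * n - 1)) (isW_pow (hw t' ht'T) (M * n'))
    have h6 : (((M * n - 1 : ℕ) : ℤ)) • w t + (((M * n' : ℕ) : ℤ)) • w t' =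
        (D : ℤ) • w₀ - w t := by
      rw [← hMD]
      have h7 : 1 ≤ M * n := Nat.mul_pos hM1 hn
      rw [Nat.cast_sub h7]
      push_cast
      rw [sub_smul, smul_add, smul_smul, smul_smul, one_smul]
      abel
    rw [h6] at h5
    exact h5
  have hB' : ∀ t : K, ∃ D : ℕ, t ∈ T → 0 < dg (w t) → ∃ g ∈ R, g ≠ 0 ∧
      IsW H ((D : ℤ) • w₀ - w t) g := by
    intro t
    by_cases h2 : t ∈ T ∧ 0 < dg (w t)
    · obtain ⟨D, h3⟩ := hB t h2.1 h2.2
      exact ⟨D, fun _ _ => h3⟩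
    · exact ⟨0, fun h3 h5 => absurd ⟨h3, h5⟩ h2⟩
  choose Dt hDt using hB'
  -- step C
  have hdeg : ∀ t ∈ T, 0 ≤ dg (w t) := fun t h2 =>
    deg_nonneg h ht (hT t h2).1 (hT t h2).2.1 (hw t h2)
  set C : ℝ := ∑ t ∈ T, (Dt t : ℝ) / dg (w t) with hC
  have hterm : ∀ t ∈ T, 0 ≤ (Dt t : ℝ) / dg (w t) := fun t h2 =>
    div_nonneg (Nat.cast_nonneg _) (hdeg t h2)
  have hC0 : 0 ≤ C := Finset.sum_nonneg hterm
  have hP : ∀ (m : Fin 2 → ℤ) (y : K), y ∈ R → y ≠ 0 → IsW H m y →
      ∃ j : ℕ, (j : ℝ) ≤ C * dg m ∧ ∃ g ∈ R, g ≠ 0 ∧ IsW H ((j : ℤ) • w₀ - m) g := by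
    intro m y hyR hy0 hy
    have h2 := weight_induction hR w hw ![1, √2] (fun b => ∃ m : Fin 2 → ℤ,
      (m 0 : ℝ) + √2 * m 1 = b ∧ ∃ j : ℕ, (j : ℝ) ≤ C * dg m ∧
        ∃ g ∈ R, g ≠ 0 ∧ IsW H ((j : ℤ) • w₀ - m) g) ?_ ?_ ?_ hyR hy0 hy
    · obtain ⟨m', h3, h5⟩ := h2
      rw [Fin.sum_univ_two] at h3
      simp only [Matrix.cons_val_zero, Matrix.cons_val_one, one_mul] at h3
      obtain ⟨h6, h7⟩ := sqrt_two_inj h3
      have h8 : m' = m := by
        ext i
        fin_cases i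
        · exact h6
        · exact h7
      rw [h8] at h5
      exact h5
    · refine ⟨0, by simp, 0, by simp [hdg], 1, R.one_mem, one_ne_zero, ?_⟩
      have e : ((0 : ℕ) : ℤ) • w₀ - 0 = 0 := by simp
      rw [e]
      exact isW_one
    · rintro x x' ⟨m, hm, j, hj, g, hgR, hg0, hg⟩ ⟨m', hm', j', hj', g', hgR', hg0', hg'⟩
      refine ⟨m + m', ?_, j + j', ?_, g * g', R.mul_mem hgR hgR', mul_ne_zero hg0 hg0', ?_⟩
      · rw [← hm, ← hm']
        simp only [Pi.add_apply]
        push_cast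
        ring
      · rw [dg_add]
        push_cast
        linarith
      · have e : ((j + j' : ℕ) : ℤ) • w₀ - (m + m') =
            ((j : ℤ) • w₀ - m) + ((j' : ℤ) • w₀ - m') := by
          push_cast
          rw [add_smul]
          abel
        rw [e]
        exact isW_mul hg hg'
    · intro t htT
      refine ⟨w t, ?_, ?_⟩
      · rw [Fin.sum_univ_two]
        simp only [Matrix.cons_val_zero, Matrix.cons_val_one, one_mul]
      · rcases (hdeg t htT).eq_or_lt with h3 | h3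
        · have h5 := weight_zero h ht (hT t htT).1 (hT t htT).2.1 (hw t htT) h3.symm
          refine ⟨0, ?_, 1, R.one_mem, one_ne_zero, ?_⟩
          · rw [← h3]
            simp
          · have e : ((0 : ℕ) : ℤ) • w₀ - w t = 0 := by
              rw [h5]
              simp
            rw [e]
            exact isW_one
        · refine ⟨Dt t, ?_, hDt t htT h3⟩
          rw [← div_le_iff₀ h3]
          exact Finset.single_le_sum (f := fun t => (Dt t : ℝ) / dg (w t)) hterm htT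
  -- step D
  obtain ⟨m, hm, hmB, hmf⟩ := s_CNT K R ξ J v a V 2 H c h4 hmin ht (by norm_num) (by norm_num)
    (|B| * (C + 1))
  have hdm : 0 < dg m := hm
  have hmB' : |B| * (C + 1) * (dg m + 1) < (finrank ℂ (Wsp R H m) : ℝ) := by
    have e : (3 - 2 : ℕ) = 1 := rfl
    rw [e, pow_one] at hmB
    exact hmB
  obtain ⟨y, hyR, hy0, hyw⟩ := hex m (lt_of_le_of_lt (by positivity) hmB')
  obtain ⟨j, hj, g, hgR, hg0, hgw⟩ := hP m y hyR hy0 hyw
  have hj0 : 0 < j := by
    rcases Nat.eq_zero_or_pos j with h2 | h2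
    · exfalso
      have h3 := deg_nonneg h ht hgR hg0 hgw
      have h5 : dg ((j : ℤ) • w₀ - m) = -dg m := by
        rw [h2]
        simp only [hdg, Fin.sum_univ_two]
        simp
        ring
      have h6 : 0 ≤ dg ((j : ℤ) • w₀ - m) := h3
      rw [h5] at h6
      linarith
    · exact h2
  refine ⟨j, hj0, finite_wsp h ht _, ?_⟩
  have hfin : Module.Finite ℂ (Wsp R H ((j : ℤ) • w₀)) := finite_wsp h ht _
  have hle : finrank ℂ (Wsp R H m) ≤ finrank ℂ (Wsp R H ((j : ℤ) • w₀)) := by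
    let f : Wsp R H m →ₗ[ℂ] Wsp R H ((j : ℤ) • w₀) :=
      LinearMap.codRestrict (Wsp R H ((j : ℤ) • w₀))
        ((LinearMap.mulLeft ℂ g).comp (Wsp R H m).subtype) (fun x => by
          refine ⟨R.mul_mem hgR x.2.1, ?_⟩
          have h2 := isW_mul hgw x.2.2
          have e : ((j : ℤ) • w₀ - m) + m = (j : ℤ) • w₀ := by abel
          rw [e] at h2
          exact h2)
    refine LinearMap.finrank_le_finrank_of_injective (f := f) ?_
    intro x x' hxx
    have h2 : g * (x : K) = g * (x' : K) := congrArg Subtype.val hxx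
    exact Subtype.ext (mul_left_cancel₀ hg0 h2)
  calc B * ((j : ℝ) + 1) ≤ |B| * ((j : ℝ) + 1) := by
        gcongr
        exact le_abs_self B
    _ ≤ |B| * ((C + 1) * (dg m + 1)) := by
        gcongr
        nlinarith
    _ = |B| * (C + 1) * (dg m + 1) := by ring
    _ < (finrank ℂ (Wsp R H m) : ℝ) := hmB'
    _ ≤ (finrank ℂ (Wsp R H ((j : ℤ) • w₀)) : ℝ) := by exact_mod_cast hle

end Pool.Agent.Helper48.D4
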