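import Pool.Agent.Helper88.D4.Stmts6
import Pool.Agent.Helper48.D4.Cnt

/-!
# Project D4 (MP_e1889a_ag): the count for the jets along the leaves
-/

set_option autoImplicit false

namespace Pool.Agent.Helper48.D4

open Module Filter Topology Pool.Agent.Helper37.SD Pool.Agent.Helper20.TS Pool.Agent.Helper88.D4

variable {K : Type} [Field K] [Algebra ℂ K]

/-- The sum of the dimensions of homogeneous parts is at most the colength. -/
theorem sum_eig_le {R : Subalgebra ℂ K} {ξ : Derivation ℂ K K} {v : RVal K} (h : IsCone R ξ)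
    (hv : IsWt R ξ v) (q : ℕ) {β γ T : ℝ} (hγ : 0 < γ) (hT : ∀ j : ℕ, j < q → β + j * γ < T) :
    ∑ j : Fin q, finrank ℂ (eigR R ξ (β + (j : ℕ) * γ)) ≤ finrank ℂ (R ⧸ idl R v T) := by
  classical
  have hfin : ∀ b : ℝ, Module.Finite ℂ (eigR R ξ b) := h.finite_eigR
  have hq := hv.finite_quot h T
  let ι : ∀ j : Fin q, eigR R ξ (β + (j : ℕ) * γ) →ₗ[ℂ] R := fun j =>
    LinearMap.codRestrict (Subalgebra.toSubmodule R) (eigR R ξ (β + (j : ℕ) * γ)).subtype
      (fun x => x.2.1)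
  let Φ : (∀ j : Fin q, eigR R ξ (β + (j : ℕ) * γ)) →ₗ[ℂ] R ⧸ idl R v T :=
    ∑ j : Fin q, ((idl R v T).mkQ.comp (ι j)).comp (LinearMap.proj j)
  have hΦa : ∀ f, Φ f = (idl R v T).mkQ (∑ j : Fin q, ι j (f j)) := by
    intro f
    simp only [Φ, LinearMap.sum_apply, LinearMap.comp_apply, LinearMap.proj_apply, map_sum]
  have hΦ : Function.Injective Φ := by
    rw [injective_iff_map_eq_zero]
    intro f hf
    by_contra hne
    have hex : ∃ j, f j ≠ 0 := by
      by_contra hcon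
      push Not at hcon
      exact hne (funext hcon)
    obtain ⟨j0, hj0, hmin⟩ := Finset.exists_min_image
      (Finset.univ.filter fun j : Fin q => f j ≠ 0) (fun j => (j : ℕ))
      (by
        obtain ⟨j, hj⟩ := hex
        exact ⟨j, Finset.mem_filter.2 ⟨Finset.mem_univ _, hj⟩⟩)
    have hj0' := (Finset.mem_filter.1 hj0).2
    rw [hΦa, Submodule.mkQ_apply, Submodule.Quotient.mk_eq_zero] at hf
    have hx : v.Ge T (∑ j : Fin q, (f j : K)) := by
      have e : ((∑ j : Fin q, ι j (f j) : R) : K) = ∑ j : Fin q, (f j : K) := by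
        rw [AddSubmonoidClass.coe_finsetSum]
        rfl
      rw [← e]
      exact hf
    have hy0 : (f j0 : K) ≠ 0 := fun h => hj0' (Subtype.ext h)
    have hlead : (∑ j : Fin q, (f j : K)) - (f j0 : K) ∈
        Hsp (ξ : K →ₗ[ℂ] K) ⊤ (fun c => β + (j0 : ℕ) * γ < c) := by
      rw [← Finset.sum_erase_eq_sub (Finset.mem_univ j0)]
      refine Submodule.sum_mem _ fun j hj => ?_
      by_cases h0 : f j = 0
      · rw [h0]
        exact Submodule.zero_mem _
      · have h1 := hmin j (Finset.mem_filter.2 ⟨Finset.mem_univ _, h0⟩)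
        have h2 : (j0 : ℕ) < (j : ℕ) := by
          refine lt_of_le_of_ne h1 fun h => (Finset.mem_erase.1 hj).1 (Fin.ext h).symm
        have h3 : ((j0 : ℕ) : ℝ) < ((j : ℕ) : ℝ) := by exact_mod_cast h2
        refine mem_hsp (c := β + (j : ℕ) * γ) Submodule.mem_top ?_ (f j).2.2
        have := mul_lt_mul_of_pos_right h3 hγ
        linarith
    obtain ⟨h1, h2⟩ := hv.val_of_lead h hy0 (f j0).2.2 hlead
    rcases hx with hx | hx
    · exact h1 hx
    · rw [h2] at hx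
      exact absurd (hT j0 j0.2) (not_lt.2 hx)
  calc ∑ j : Fin q, finrank ℂ (eigR R ξ (β + (j : ℕ) * γ))
      = finrank ℂ (∀ j : Fin q, eigR R ξ (β + (j : ℕ) * γ)) := (Module.finrank_pi_fintype ℂ).symm
    _ ≤ _ := LinearMap.finrank_le_finrank_of_injective hΦ

/-! ### Iterated derivations -/

theorem der_mem_span {n : ℕ} {S S' : Set (Fin n → K)} (hS : S ⊆ Submodule.span K S')
    (D : Derivation ℂ K K) (hD : ∀ u ∈ S, (fun l => D (u l)) ∈ Submodule.span K S')
    {u : Fin n → K} (hu : u ∈ Submodule.span K S) :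
    (fun l => D (u l)) ∈ Submodule.span K S' := by
  have hSS : Submodule.span K S ≤ Submodule.span K S' := Submodule.span_le.2 hS
  induction hu using Submodule.span_induction with
  | mem u hu => exact hD u hu
  | zero =>
    have e : (fun l : Fin n => D ((0 : Fin n → K) l)) = 0 := by
      funext l
      exact map_zero D
    rw [e]
    exact Submodule.zero_mem _
  | add u w _ _ hu hw =>
    have e : (fun l => D ((u + w) l)) = (fun l => D (u l)) + fun l => D (w l) := by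
      funext l
      exact map_add D _ _
    rw [e]
    exact Submodule.add_mem _ hu hw
  | smul x u h1 hu =>
    have e : (fun l => D ((x • u) l)) = x • (fun l => D (u l)) + D x • u := by
      funext l
      change D (x * u l) = x * D (u l) + D x * u l
      rw [Derivation.leibniz, smul_eq_mul, smul_eq_mul]
      ring
    rw [e]
    exact Submodule.add_mem _ (Submodule.smul_mem _ _ hu) (Submodule.smul_mem _ _ (hSS h1))

/-- the spanning vectors -/
def SE (E : Fin 2 → Derivation ℂ K K) {n : ℕ} (B : Fin n → K) (i j : ℕ) : Set (Fin n → K) :=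
  {u | ∃ i' ≤ i, ∃ j' ≤ j, u = fun l => dd E i' j' (B l)}

theorem SE_mono (E : Fin 2 → Derivation ℂ K K) {n : ℕ} (B : Fin n → K) {i j i' j' : ℕ}
    (hi : i ≤ i') (hj : j ≤ j') : SE E B i j ⊆ SE E B i' j' := by
  rintro u ⟨a, ha, b, hb, rfl⟩
  exact ⟨a, ha.trans hi, b, hb.trans hj, rfl⟩

theorem dd_mem_span (D : Fin 2 → Derivation ℂ K K) {g : K} (hg : g ≠ 0) {n : ℕ} (B : Fin n → K)
    (i j : ℕ) : (fun l => dd D i j (B l)) ∈ Submodule.span K (SE (fun k => g • D k) B i j) := by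
  induction i with
  | zero =>
    induction j with
    | zero => exact Submodule.subset_span ⟨0, le_rfl, 0, le_rfl, rfl⟩
    | succ j ih =>
      have e : (fun l => dd D 0 (j + 1) (B l)) = fun l => D 1 (dd D 0 j (B l)) := by
        funext l
        simp only [dd, Function.iterate_succ_apply', Function.iterate_zero, id_eq]
      rw [e]
      refine der_mem_span ((SE_mono _ B le_rfl (Nat.le_succ j)).trans Submodule.subset_span) (D 1)
        ?_ ih
      rintro u ⟨a, ha, b, hb, rfl⟩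
      obtain rfl : a = 0 := Nat.le_zero.1 ha
      have e2 : (fun l => D 1 (dd (fun k => g • D k) 0 b (B l))) =
          g⁻¹ • fun l => dd (fun k => g • D k) 0 (b + 1) (B l) := by
        funext l
        simp only [dd, Function.iterate_succ_apply', Function.iterate_zero, id_eq, Pi.smul_apply,
          Derivation.smul_apply, smul_eq_mul]
        rw [inv_mul_cancel_left₀ hg]
      rw [e2]
      exact Submodule.smul_mem _ _ (Submodule.subset_span ⟨0, le_rfl, b + 1, by omega, rfl⟩)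
  | succ i ih =>
    have e : (fun l => dd D (i + 1) j (B l)) = fun l => D 0 (dd D i j (B l)) := by
      funext l
      simp only [dd, Function.iterate_succ_apply']
    rw [e]
    refine der_mem_span ((SE_mono _ B (Nat.le_succ i) le_rfl).trans Submodule.subset_span) (D 0)
      ?_ ih
    rintro u ⟨a, ha, b, hb, rfl⟩
    have e2 : (fun l => D 0 (dd (fun k => g • D k) a b (B l))) =
        g⁻¹ • fun l => dd (fun k => g • D k) (a + 1) b (B l) := by
      funext l
      simp only [dd, Function.iterate_succ_apply', Pi.smul_apply, Derivation.smul_apply,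
        smul_eq_mul]
      rw [inv_mul_cancel_left₀ hg]
    rw [e2]
    exact Submodule.smul_mem _ _ (Submodule.subset_span ⟨a + 1, by omega, b, hb, rfl⟩)

theorem sum_dd_zero (D : Fin 2 → Derivation ℂ K K) {g : K} (hg : g ≠ 0) {n : ℕ} (A B : Fin n → K)
    {i j : ℕ} (h : ∀ i' ≤ i, ∀ j' ≤ j, ∑ l, A l * dd (fun k => g • D k) i' j' (B l) = 0) :
    ∑ l, A l * dd D i j (B l) = 0 := by
  let P : (Fin n → K) →ₗ[K] K :=
    { toFun := fun u => ∑ l, A l * u l
      map_add' := fun u w => by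
        simp only [Pi.add_apply, mul_add, Finset.sum_add_distrib]
      map_smul' := fun x u => by
        simp only [Pi.smul_apply, smul_eq_mul, RingHom.id_apply, Finset.mul_sum]
        refine Finset.sum_congr rfl fun l _ => ?_
        ring }
  have h1 : Submodule.span K (SE (fun k => g • D k) B i j) ≤ LinearMap.ker P := by
    refine Submodule.span_le.2 ?_
    rintro u ⟨a, ha, b, hb, rfl⟩
    exact h a ha b hb
  exact h1 (dd_mem_span D hg B i j)

/-! ### Growth -/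

theorem vol_bounds {R : Subalgebra ℂ K} {v : RVal K} {V : ℝ} (hV : HasVol 2 R v V) (hV0 : 0 < V) :
    ∀ᶠ t : ℕ in atTop, V / 48 * (t : ℝ) ^ 4 < finrank ℂ (R ⧸ idl R v t) ∧
      (finrank ℂ (R ⧸ idl R v t) : ℝ) < (V + 1) * (t : ℝ) ^ 4 := by
  have h1 := hV.eventually (lt_mem_nhds (show V / 2 < V by linarith))
  have h2 := hV.eventually (gt_mem_nhds (show V < V + 1 by linarith))
  filter_upwards [h1, h2, eventually_ge_atTop 1] with t h3 h4 h5
  have ht : (1 : ℝ) ≤ t := by exact_mod_cast h5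
  have hp : (0 : ℝ) < (t : ℝ) ^ (2 * 2) := by positivity
  have e : ((2 * 2).factorial : ℝ) = 24 := by norm_num [Nat.factorial]
  rw [e] at h3 h4
  rw [lt_div_iff₀ hp] at h3
  rw [div_lt_iff₀ hp] at h4
  have e4 : (t : ℝ) ^ (2 * 2) = (t : ℝ) ^ 4 := by norm_num
  rw [e4] at h3 h4 hp
  constructor
  · linarith
  · nlinarith

/-- Some homogeneous part has the dimension of a constant times `t ^ 3`. -/
theorem large_space {R : Subalgebra ℂ K} {ξ : Derivation ℂ K K} {v : RVal K} {V : ℝ}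
    {H : Fin 1 → Derivation ℂ K K} {c : Fin 1 → ℝ} (h : IsCone R ξ) (hwt : IsWt R ξ v)
    (hV : HasVol 2 R v V) (hV0 : 0 < V) (ht : Tor R ξ H c) : ∃ κ : ℝ, 0 < κ ∧
      ∀ᶠ t : ℕ in atTop, ∃ m : Fin 1 → ℤ, 0 < ∑ i, c i * m i ∧ ∑ i, c i * m i < t ∧
        κ * (t : ℝ) ^ 3 < finrank ℂ (Wsp R H m) := by
  classical
  obtain ⟨L, hL0, hL⟩ := weight_bound h ht
  set κ : ℝ := V / (192 * (2 * L + 3)) with hκ
  have hκ0 : 0 < κ := by positivity
  refine ⟨κ, hκ0, ?_⟩
  filter_upwards [vol_bounds hV hV0, eventually_ge_atTop 1,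
    eventually_ge_atTop ⌈96 * (finrank ℂ (Wsp R H 0) : ℝ) / V⌉₊] with n hn hn1 hn2
  by_contra hcon
  have hcon' : ∀ m : Fin 1 → ℤ, 0 < ∑ i, c i * m i → ∑ i, c i * m i < (n : ℝ) →
      (finrank ℂ (Wsp R H m) : ℝ) ≤ κ * (n : ℝ) ^ 3 := by
    intro m h1 h2
    by_contra h3
    exact hcon ⟨m, h1, h2, not_le.1 h3⟩
  have hn1' : (1 : ℝ) ≤ n := by exact_mod_cast hn1
  set N : ℕ := ⌈L * n⌉₊ with hN
  let Box : Finset (Fin 1 → ℤ) := Fintype.piFinset fun _ => Finset.Icc (-(N : ℤ)) (N : ℤ)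
  let S₁ : Finset (Fin 1 → ℤ) := Box.filter fun m => 0 < ∑ i, c i * m i ∧ ∑ i, c i * m i < n
  let S : Finset (Fin 1 → ℤ) := insert 0 S₁
  have hS : ∀ (m : Fin 1 → ℤ) (y : K), y ∈ R → y ≠ 0 → IsW H m y →
      ∑ i, c i * m i < (n : ℝ) → m ∈ S := by
    intro m y hyR hy0 hy hlt
    rcases (deg_nonneg h ht hyR hy0 hy).eq_or_lt with h1 | h1
    · rw [weight_zero h ht hyR hy0 hy h1.symm]
      exact Finset.mem_insert_self _ _
    · refine Finset.mem_insert_of_mem (Finset.mem_filter.2 ⟨Fintype.mem_piFinset.2 fun i => ?_,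
        h1, hlt⟩)
      have h2 : |(m i : ℝ)| ≤ N := by
        refine (hL m y hyR hy0 hy i).trans ?_
        refine le_trans ?_ (Nat.le_ceil (L * n))
        gcongr
      have h3 : |m i| ≤ (N : ℤ) := by exact_mod_cast h2
      rw [Finset.mem_Icc]
      exact abs_le.1 h3
  have hcard : (S₁.card : ℝ) ≤ (2 * L + 3) * n := by
    have h1 : S₁.card ≤ 2 * N + 1 := by
      refine (Finset.card_filter_le _ _).trans ?_
      rw [Fintype.card_piFinset]
      simp only [Int.card_Icc, Finset.prod_const, Finset.card_univ, Fintype.card_fin]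
      have : ((N : ℤ) + 1 - -(N : ℤ)).toNat = 2 * N + 1 := by omega
      rw [this, pow_one]
    have h2 : (N : ℝ) < L * n + 1 := Nat.ceil_lt_add_one (by positivity)
    have h3 : (S₁.card : ℝ) ≤ 2 * N + 1 := by exact_mod_cast h1
    nlinarith
  have hcol : (finrank ℂ (R ⧸ idl R v n) : ℝ) ≤ finrank ℂ (Wsp R H 0) + S₁.card * (κ * (n : ℝ) ^ 3) := by
    calc (finrank ℂ (R ⧸ idl R v n) : ℝ) ≤ ((∑ m ∈ S, finrank ℂ (Wsp R H m) : ℕ) : ℝ) := by
          exact_mod_cast colen_le h ht hwt n S hS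
      _ ≤ (finrank ℂ (Wsp R H 0) : ℝ) + ∑ m ∈ S₁, (finrank ℂ (Wsp R H m) : ℝ) := by
          have h1 : ∑ m ∈ S, finrank ℂ (Wsp R H m) ≤ finrank ℂ (Wsp R H 0) +
              ∑ m ∈ S₁, finrank ℂ (Wsp R H m) := by
            by_cases h0 : (0 : Fin 1 → ℤ) ∈ S₁
            · simp only [S, Finset.insert_eq_of_mem h0]
              exact Nat.le_add_left _ _
            · simp only [S, Finset.sum_insert h0]
              exact le_refl _
          exact_mod_cast h1
      _ ≤ (finrank ℂ (Wsp R H 0) : ℝ) + ∑ m ∈ S₁, κ * (n : ℝ) ^ 3 := by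
          gcongr with m hm
          obtain ⟨-, h1, h2⟩ := Finset.mem_filter.1 hm
          exact hcon' m h1 h2
      _ = _ := by rw [Finset.sum_const, nsmul_eq_mul]
  have h1 : (S₁.card : ℝ) * (κ * (n : ℝ) ^ 3) ≤ (2 * L + 3) * n * (κ * (n : ℝ) ^ 3) :=
    mul_le_mul_of_nonneg_right hcard (by positivity)
  have h2 : (2 * L + 3) * n * (κ * (n : ℝ) ^ 3) = V / 192 * (n : ℝ) ^ 4 := by
    rw [hκ]
    have : (2 * L + 3 : ℝ) ≠ 0 := by positivity
    field_simp
  have h3 : 96 * (finrank ℂ (Wsp R H 0) : ℝ) / V ≤ n :=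
    (Nat.le_ceil _).trans (by exact_mod_cast hn2)
  rw [div_le_iff₀ hV0] at h3
  have h4 : (n : ℝ) ≤ (n : ℝ) ^ 4 := by
    have := pow_le_pow_right₀ hn1' (show 1 ≤ 4 by norm_num)
    simpa using this
  have h5 : (n : ℝ) * V ≤ (n : ℝ) ^ 4 * V := mul_le_mul_of_nonneg_right h4 hV0.le
  have h6 := hn.1
  nlinarith

/-- A homogeneous element of positive degree which makes both derivations regular. -/
theorem exists_g {R : Subalgebra ℂ K} {ξ : Derivation ℂ K K} (h : IsCone R ξ)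
    (hl : ∃ (y : K) (b : ℝ), y ∈ R ∧ y ≠ 0 ∧ 0 < b ∧ ξ y = (b : ℂ) • y)
    (D : Fin 2 → Derivation ℂ K K) (hD : ∀ i, ⁅ξ, D i⁆ = 0) :
    ∃ (g : K) (γ : ℝ), g ≠ 0 ∧ 0 < γ ∧ ξ g = (γ : ℂ) • g ∧ ∀ i, Pres R (g • D i) := by
  have hden : ∀ i, ∃ (q : K) (b : ℝ), q ∈ R ∧ q ≠ 0 ∧ ξ q = (b : ℂ) • q ∧
      Pres R (q • D i) := by
    intro i
    refine h.der_den (c := 0) ?_
    rw [hD i]
    simp
  choose q b hq1 hq2 hq3 hq4 using hden
  obtain ⟨y, β, hyR, hy0, hβ, hyβ⟩ := hl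
  have hb : ∀ i, 0 ≤ b i := fun i => h.eig_nonneg (hq1 i) (hq2 i) (hq3 i)
  refine ⟨q 0 * q 1 * y, b 0 + b 1 + β, mul_ne_zero (mul_ne_zero (hq2 0) (hq2 1)) hy0,
    by linarith [hb 0, hb 1], eig_mul (eig_mul (hq3 0) (hq3 1)) hyβ, fun i => ?_⟩
  intro x hx
  have h2 : ∀ i, q i * D i x ∈ R := fun i => hq4 i x hx
  change q 0 * q 1 * y * D i x ∈ R
  fin_cases i
  · have e : q 0 * q 1 * y * D 0 x = (q 1 * y) * (q 0 * D 0 x) := by ring
    change q 0 * q 1 * y * D 0 x ∈ R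
    rw [e]
    exact R.mul_mem (R.mul_mem (hq1 1) hyR) (h2 0)
  · have e : q 0 * q 1 * y * D 1 x = (q 0 * y) * (q 1 * D 1 x) := by ring
    change q 0 * q 1 * y * D 1 x ∈ R
    rw [e]
    exact R.mul_mem (R.mul_mem (hq1 0) hyR) (h2 1)

theorem dd_mem {R : Subalgebra ℂ K} {E : Fin 2 → Derivation ℂ K K} (hE : ∀ i, Pres R (E i))
    {x : K} (hx : x ∈ R) (i j : ℕ) : dd E i j x ∈ R :=
  iter_mem (hE 0) (iter_mem (hE 1) hx j) i

theorem dd_eig {ξ : Derivation ℂ K K} {E : Fin 2 → Derivation ℂ K K} {γ : ℝ}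
    (hE : ∀ i, ⁅ξ, E i⁆ = (γ : ℂ) • E i) {x : K} {w : ℝ} (hx : ξ x = (w : ℂ) • x) (i j : ℕ) :
    ξ (dd E i j x) = ((w + j * γ + i * γ : ℝ) : ℂ) • dd E i j x := by
  have hE' : ∀ i, ⁅ξ, E i⁆ = ((-(-γ) : ℝ) : ℂ) • E i := by
    intro i
    rw [neg_neg]
    exact hE i
  have h1 := iter_eig (hE' 1) hx j
  have h2 := iter_eig (hE' 0) h1 i
  have e : w - j * -γ - i * -γ = w + j * γ + i * γ := by ring
  rw [e] at h2
  exact h2

/-- The dimension count. -/
theorem count {R : Subalgebra ℂ K} {ξ : Derivation ℂ K K} {v : RVal K}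
    {H : Fin 1 → Derivation ℂ K K} {c : Fin 1 → ℝ} (h : IsCone R ξ) (hwt : IsWt R ξ v)
    (ht : Tor R ξ H c) {E : Fin 2 → Derivation ℂ K K} {γ : ℝ} (hγ : 0 < γ)
    (hE : ∀ i, ⁅ξ, E i⁆ = (γ : ℂ) • E i) (hER : ∀ i, Pres R (E i)) (m : Fin 1 → ℤ) (n q : ℕ)
    (hn : finrank ℂ (Wsp R H m) = n) (B : Fin n → K) (hB : ∀ l, B l ∈ Wsp R H m) {T : ℝ}
    (hT : 2 * (∑ i, c i * m i) + 2 * q * γ < T)
    (hlt : q * finrank ℂ (R ⧸ idl R v T) < n * n) :
    ∃ A : Fin n → K, (∀ l, A l ∈ Wsp R H m) ∧ A ≠ 0 ∧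
      ∀ i j, i < q → j < q → ∑ l, A l * dd E i j (B l) = 0 := by
  classical
  set w : ℝ := ∑ i, c i * m i with hw
  have hfW : Module.Finite ℂ (Wsp R H m) := finite_wsp h ht m
  have hfin : ∀ b : ℝ, Module.Finite ℂ (eigR R ξ b) := h.finite_eigR
  let φ : ∀ i j : ℕ, (Fin n → Wsp R H m) →ₗ[ℂ] K := fun i j =>
    ∑ l, (LinearMap.mulRight ℂ (dd E i j (B l))).comp
      ((Wsp R H m).subtype.comp (LinearMap.proj l))
  have hφ : ∀ i j A, φ i j A = ∑ l, (A l : K) * dd E i j (B l) := by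
    intro i j A
    simp only [φ, LinearMap.sum_apply, LinearMap.comp_apply, LinearMap.proj_apply,
      LinearMap.mulRight_apply, Submodule.subtype_apply]
  have hmem : ∀ (i j : ℕ) (A : Fin n → Wsp R H m),
      φ i j A ∈ eigR R ξ ((2 * w + i * γ) + j * γ) := by
    intro i j A
    rw [hφ]
    refine Submodule.sum_mem _ fun l _ => ⟨R.mul_mem (A l).2.1 (dd_mem hER (hB l).1 i j), ?_⟩
    have h1 := eig_mul (xi_w ht (A l).2.2) (dd_eig hE (xi_w ht (hB l).2) i j)
    rw [← hw] at h1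
    have e : w + (w + j * γ + i * γ) = 2 * w + i * γ + j * γ := by ring
    rw [e] at h1
    exact h1
  let Φ : (Fin n → Wsp R H m) →ₗ[ℂ]
      (∀ i j : Fin q, eigR R ξ ((2 * w + (i : ℕ) * γ) + (j : ℕ) * γ)) :=
    LinearMap.pi fun i => LinearMap.pi fun j =>
      LinearMap.codRestrict (eigR R ξ ((2 * w + (i : ℕ) * γ) + (j : ℕ) * γ)) (φ i j)
        (hmem i j)
  have htgt : finrank ℂ (∀ i j : Fin q, eigR R ξ ((2 * w + (i : ℕ) * γ) + (j : ℕ) * γ)) ≤
      q * finrank ℂ (R ⧸ idl R v T) := by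
    rw [Module.finrank_pi_fintype]
    calc ∑ i : Fin q, finrank ℂ (∀ j : Fin q, eigR R ξ ((2 * w + (i : ℕ) * γ) + (j : ℕ) * γ))
        ≤ ∑ i : Fin q, finrank ℂ (R ⧸ idl R v T) := by
          refine Finset.sum_le_sum fun i _ => ?_
          rw [Module.finrank_pi_fintype]
          refine sum_eig_le h hwt q hγ fun j hj => ?_
          have h1 : ((i : ℕ) : ℝ) ≤ q := by exact_mod_cast i.2.le
          have h2 : (j : ℝ) ≤ q := by exact_mod_cast hj.le
          nlinarith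
      _ = q * finrank ℂ (R ⧸ idl R v T) := by
          rw [Finset.sum_const, Finset.card_univ, Fintype.card_fin, smul_eq_mul]
  have hsrc : finrank ℂ (Fin n → Wsp R H m) = n * n := by
    rw [Module.finrank_pi_fintype, Finset.sum_const, Finset.card_univ, Fintype.card_fin, hn,
      smul_eq_mul]
  have hker : LinearMap.ker Φ ≠ ⊥ :=
    LinearMap.ker_ne_bot_of_finrank_lt (by rw [hsrc]; exact lt_of_le_of_lt htgt hlt)
  obtain ⟨A, hA, hA0⟩ := Submodule.exists_mem_ne_zero_of_ne_bot hker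
  refine ⟨fun l => (A l : K), fun l => (A l).2, fun h0 => hA0 ?_, fun i j hi hj => ?_⟩
  · funext l
    exact Subtype.ext (congrFun h0 l)
  · have h1 : Φ A = 0 := hA
    have h2 := congrFun (congrFun h1 ⟨i, hi⟩) ⟨j, hj⟩
    have h3 : φ i j A = 0 := congrArg Subtype.val h2
    rw [hφ] at h3
    exact h3

theorem s_J2 : S_J2 := by
  classical
  intro K _ _ R ξ J v a V H c h4 hmin ht D hD _ A₀ hA₀
  have h : IsCone R ξ := h4.toIsCone
  obtain ⟨κ, hκ, hlarge⟩ := large_space h hmin.wt hmin.vol hmin.vpos ht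
  have hl : ∃ (y : K) (b : ℝ), y ∈ R ∧ y ≠ 0 ∧ 0 < b ∧ ξ y = (b : ℂ) • y := by
    obtain ⟨t, m, hm0, _, hm⟩ := hlarge.exists
    have hpos : 0 < finrank ℂ (Wsp R H m) := by
      have h1 : (0 : ℝ) < finrank ℂ (Wsp R H m) := lt_of_le_of_lt (by positivity) hm
      exact_mod_cast h1
    have hfW : Module.Finite ℂ (Wsp R H m) := finite_wsp h ht m
    obtain ⟨y, hy⟩ := Module.finrank_pos_iff_exists_ne_zero.1 hpos
    exact ⟨y, _, y.2.1, fun h => hy (Subtype.ext h), hm0, xi_w ht y.2.2⟩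
  obtain ⟨g, γ, hg0, hγ, hgγ, hgR⟩ := exists_g h hl D hD
  have hE : ∀ i, ⁅ξ, g • D i⁆ = (γ : ℂ) • (g • D i) := by
    intro i
    have h1 := hom_smul (D := D i) (c := 0) (ξ := ξ) (by rw [hD i]; simp) hgγ
    rw [add_zero] at h1
    exact h1
  set N : ℕ := ⌈2 + 2 * (A₀ + 1) * γ⌉₊ with hN
  have hN1 : 2 + 2 * (A₀ + 1) * γ ≤ N := Nat.le_ceil _
  have hN0 : 0 < N := by
    have : (0 : ℝ) < N := lt_of_lt_of_le (by positivity) hN1
    exact_mod_cast this
  have hNt : Tendsto (fun t : ℕ => N * t) atTop atTop :=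
    tendsto_atTop_mono (fun t => Nat.le_mul_of_pos_left t hN0) tendsto_id
  have hvol := hNt.eventually (vol_bounds hmin.vol hmin.vpos)
  set C : ℝ := (A₀ + 1) * ((V + 1) * (N : ℝ) ^ 4) with hC
  have hV0 := hmin.vpos
  obtain ⟨t, ⟨⟨m, hm0, hmt, hm⟩, hv⟩, ht1, ht2⟩ := ((hlarge.and hvol).and
    ((eventually_ge_atTop 1).and (eventually_ge_atTop ⌈C / κ ^ 2⌉₊))).exists
  set w : ℝ := ∑ i, c i * m i with hw
  set q : ℕ := ⌈A₀ * w⌉₊ with hq
  set n : ℕ := finrank ℂ (Wsp R H m) with hn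
  have hfW : Module.Finite ℂ (Wsp R H m) := finite_wsp h ht m
  let b := Module.finBasis ℂ (Wsp R H m)
  have ht1' : (1 : ℝ) ≤ t := by exact_mod_cast ht1
  have hq1 : (q : ℝ) ≤ (A₀ + 1) * t := by
    have h1 : (q : ℝ) < A₀ * w + 1 := Nat.ceil_lt_add_one (by positivity)
    nlinarith
  have hcast : ((N * t : ℕ) : ℝ) = N * t := by push_cast; ring
  obtain ⟨A, hA, hA0, hAB⟩ := count h hmin.wt ht hγ hE hgR m n q rfl (fun l => (b l : K))
    (fun l => (b l).2) (T := ((N * t : ℕ) : ℝ))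
    (by
      rw [← hw, hcast]
      have h1 : (2 + 2 * (A₀ + 1) * γ) * t ≤ N * t := mul_le_mul_of_nonneg_right hN1 (by positivity)
      have h2 : 2 * (q : ℝ) * γ ≤ 2 * ((A₀ + 1) * t) * γ := by gcongr
      nlinarith)
    (by
      have h1 : (q : ℝ) * finrank ℂ (R ⧸ idl R v ((N * t : ℕ) : ℝ)) ≤ C * (t : ℝ) ^ 5 := by
        calc (q : ℝ) * finrank ℂ (R ⧸ idl R v ((N * t : ℕ) : ℝ))
            ≤ ((A₀ + 1) * t) * ((V + 1) * ((N * t : ℕ) : ℝ) ^ 4) := by
              gcongr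
              exact hv.2.le
          _ = C * (t : ℝ) ^ 5 := by
              rw [hcast, hC]
              ring
      have h2 : C ≤ κ ^ 2 * t := by
        have h3 : C / κ ^ 2 ≤ t := (Nat.le_ceil _).trans (by exact_mod_cast ht2)
        rw [div_le_iff₀ (by positivity)] at h3
        linarith
      have h3 : C * (t : ℝ) ^ 5 ≤ (κ * (t : ℝ) ^ 3) ^ 2 := by
        calc C * (t : ℝ) ^ 5 ≤ (κ ^ 2 * t) * (t : ℝ) ^ 5 := by gcongr
          _ = (κ * (t : ℝ) ^ 3) ^ 2 := by ring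
      have h4 : (κ * (t : ℝ) ^ 3) ^ 2 < (n : ℝ) ^ 2 := by
        gcongr
      have h5 : (q : ℝ) * finrank ℂ (R ⧸ idl R v ((N * t : ℕ) : ℝ)) < (n : ℝ) * n := by
        nlinarith
      exact_mod_cast h5)
  refine ⟨w, n, q, A, fun l => (b l : K), hm0, Nat.le_ceil _,
    fun l => ⟨(hA l).1, xi_w ht (hA l).2⟩, fun l => ⟨(b l).2.1, xi_w ht (b l).2.2⟩, ?_, hA0,
    fun i j hij => ?_⟩
  · have h1 := b.linearIndependent
    exact h1.map' (Wsp R H m).subtype (Submodule.ker_subtype _)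
  · exact sum_dd_zero D hg0 A (fun l => (b l : K)) fun i' hi' j' hj' =>
      hAB i' j' (by omega) (by omega)

end Pool.Agent.Helper48.D4
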